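import Pool.Agent.Helper70.EQ.Goals

set_option autoImplicit false

namespace Pool.Agent.Helper44.EQ.LA

open MeasureTheory Set Pool.Agent.Helper70.KN Pool.Agent.Helper70.EQ

theorem t (hCL : Pool.Agent.Helper70.KN.S_CL) (hMF : Pool.Agent.Helper70.KN.S_MF)
    (hMD : Pool.Agent.Helper70.EQ.G_MD) : Pool.Agent.Helper70.EQ.G_LA := by
  intro N V hV i
  have hup : IsUpperSet (newton V) := (hCL N V).2.2
  have hsub : D V (Finset.univ.erase i) ⊆
      ((fun x : Fin N → ℝ => x + -(Pi.single i 1 : Fin N → ℝ)) ⁻¹' D V Finset.univ) ∪
        cyl V {i} := by
    intro x hx
    obtain ⟨hx0, hx1⟩ := hx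
    by_cases h : 1 ≤ x i
    · left
      show x + -(Pi.single i 1 : Fin N → ℝ) ∈ D V Finset.univ
      refine ⟨?_, ?_⟩
      · intro k
        by_cases hk : k = i
        · subst hk
          simp only [Pi.zero_apply, Pi.add_apply, Pi.neg_apply, Pi.single_eq_same]
          linarith
        · have := hx0 k
          simp only [Pi.zero_apply, Pi.add_apply, Pi.neg_apply, Pi.single_eq_of_ne hk] at this ⊢
          linarith
      · intro hmem
        apply hx1
        refine hup ?_ hmem
        intro k
        by_cases hk : k = i
        · subst hk
          have e1 : up (Finset.univ.erase k) x k = x k := by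
            unfold up
            rw [if_neg (by simp)]
          have e2 : up Finset.univ (x + -(Pi.single k 1 : Fin N → ℝ)) k =
              (⌊x k + -1⌋ : ℝ) + 1 := by
            unfold up
            rw [if_pos (Finset.mem_univ _)]
            simp only [Pi.add_apply, Pi.neg_apply, Pi.single_eq_same]
          rw [e1, e2]
          have := Int.floor_le (x k + -1)
          linarith
        · have e1 : up (Finset.univ.erase i) x k = (⌊x k⌋ : ℝ) + 1 := by
            unfold up
            rw [if_pos (by simp [hk])]
          have e2 : up Finset.univ (x + -(Pi.single i 1 : Fin N → ℝ)) k =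
              (⌊x k⌋ : ℝ) + 1 := by
            unfold up
            rw [if_pos (Finset.mem_univ _)]
            simp only [Pi.add_apply, Pi.neg_apply, Pi.single_eq_of_ne hk, neg_zero, add_zero]
          rw [e1, e2]
    · right
      refine ⟨hx0, ?_, ?_⟩
      · intro j hj
        rw [Finset.mem_singleton] at hj
        rw [hj]
        exact not_le.1 h
      · intro hmem
        apply hx1
        refine hup ?_ hmem
        intro k
        by_cases hk : k = i
        · subst hk
          have e1 : up (Finset.univ.erase k) x k = x k := by
            unfold up
            rw [if_neg (by simp)]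
          have e2 : zr {k} x k = 0 := by
            unfold zr
            rw [if_pos (by simp)]
          rw [e1, e2]
          exact hx0 k
        · have e1 : up (Finset.univ.erase i) x k = (⌊x k⌋ : ℝ) + 1 := by
            unfold up
            rw [if_pos (by simp [hk])]
          have e2 : zr {i} x k = x k := by
            unfold zr
            rw [if_neg (by simp [hk])]
          rw [e1, e2]
          exact (Int.lt_floor_add_one (x k)).le
  have hle : volume (D V (Finset.univ.erase i)) ≤
      volume (D V Finset.univ) + volume (cyl V {i}) := by
    refine (measure_mono hsub).trans ((measure_union_le _ _).trans ?_)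
    rw [measure_preimage_add_right]
  have f1 := (hMD N V hV Finset.univ).2.1
  have f2 := (hMF N V hV {i}).2.1
  unfold dv W
  rw [← ENNReal.toReal_add f1 f2]
  exact ENNReal.toReal_mono (ENNReal.add_ne_top.2 ⟨f1, f2⟩) hle

end Pool.Agent.Helper44.EQ.LA
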