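import Pool.Agent.Helper98.EQ.Goals
import Pool.Agent.Helper1.EP.LFT
import Mathlib

/-!
# Project EQ, packet LFT: lifting of invariant idempotents
-/

set_option autoImplicit false

namespace Pool.Agent.Helper44.EQ.LFT

open MonoidAlgebra IsLocalRing Pool.Agent.Helper17.PF
open Pool.Agent.Helper47.EP (Dat Chr Hs Om ee ev)
open Pool.Agent.Helper1.EP Pool.Agent.Helper98.EQ

variable {p : ℕ} [Fact p.Prime] {T : Dat p} {A : Type} [Fintype A] [DecidableEq A]
  {D : Type} [Group D]

theorem nice_iff {R : Type} [CommRing R] (M : SA T A D) {x : MonoidAlgebra R (Hs T A)} :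
    LFT.Nice {τ : Hs T A ≃* Hs T A | ∃ d, τ = M.s d} ⊤ x ↔ Iv M x := by
  constructor
  · intro h d g
    exact h.inv (M.s d) ⟨d, rfl⟩ g
  · intro h
    refine ⟨?_, fun g hg => absurd (Subgroup.mem_top g) hg⟩
    rintro τ ⟨d, rfl⟩ g
    exact h d g

theorem ee_inv {R : Type} [CommRing R] (C : Chr T R) (M : SA T A D) : Iv M (ee C A) := by
  rw [HB.ee_eq_ev]
  intro d g
  rw [HB.ev_coeff, HB.ev_coeff]
  have h0 : M.m d 0 = 0 := by
    have h1 := M.add d 0 0
    rw [add_zero] at h1
    exact left_eq_add.1 h1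
  have h : (M.s d g).v = 0 ↔ g.v = 0 := by
    rw [SA.s_apply]
    constructor
    · intro h1
      have h2 : M.m d⁻¹ (M.m d g.v) = M.m d⁻¹ (M.m d 0) := by
        rw [h0]
        exact congrArg (M.m d⁻¹) h1
      rwa [M.inv_left, M.inv_left] at h2
    · intro h1
      show M.m d g.v = 0
      rw [h1, h0]
  have hz : (M.s d g).z = g.z := rfl
  simp only [h, hz]

theorem t : Pool.Agent.Helper98.EQ.S_LFT := by
  intro p _ T A _ _ D _ M R _ _ _ C i hii hei hi
  obtain ⟨f, hfN, hff, hfr⟩ := LFT.nice_idem ((nice_iff M).2 hi) hii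
  have h3 := ((nice_iff M).2 (ee_inv C M)).mul hfN
  have h4 := (nice_iff M).1 h3
  refine ⟨ee C A * f, ?_, ?_, h4, ?_⟩
  · calc ee C A * f * (ee C A * f) = ee C A * (f * ee C A) * f := by simp only [mul_assoc]
      _ = ee C A * (ee C A * f) * f := by rw [← HB.ee_central C f]
      _ = (ee C A * ee C A) * (f * f) := by simp only [mul_assoc]
      _ = ee C A * f := by rw [HB.ee_idem, hff]
  · rw [← mul_assoc, HB.ee_idem]
  · rw [map_mul, hfr]
    have h6 : red R (Hs T A) (ee C A) = ee (C.map (residue R)) A := by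
      unfold red
      rw [HB.ee_eq_ev, HB.map_ev, ← HB.ee_eq_ev]
    rw [h6, hei]

end Pool.Agent.Helper44.EQ.LFT
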